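import Mathlib.Analysis.SpecialFunctions.Log.Deriv
import Mathlib.Analysis.SpecialFunctions.Sqrt
import Mathlib.Analysis.Calculus.DerivativeTest
import Mathlib.Analysis.Convex.Segment
import Mathlib.Topology.Order.IntermediateValue

/-!
# The hyperbolic-plus-taxicab disk is not of nonpositive curvature in the sense of Busemann
(MP_b19ca0_gt, Q1: disproved)

Take `x = (3/5, 0)` and the thin triangles `y = x + T (1, κ)`, `z = x + T (1, -κ)`. The midpoints are
`p = x + τ (1, κ)` and `q = x + τ (1, -κ)`. The taxicab part keeps `τ` closer to `T / 2` than the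
hyperbolic midpoint, but in the horizontal direction the share of the hyperbolic part in the length
is larger than in the vertical direction, so the gain of `2 m (p, q)` over `m (y, z)` is of the order
`κ T²` and larger than the loss of `2 h (p, q)`.
-/

set_option autoImplicit false

open Filter Topology Set

namespace Pool.Agent.Results.MP_b19ca0_gt.NotBusemannConvex

/-- the open unit disk -/
def disk : Set (ℝ × ℝ) := {x | x.1 ^ 2 + x.2 ^ 2 < 1}

/-- the quadratic polynomial `|x + t (y - x)|² - 1` in `t` is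
`quadA x y * t ^ 2 + 2 * quadB x y * t - quadC x`; its roots are the affine coordinates (with `x` at
`0` and `y` at `1`) of the points where the line through `x` and `y` meets the unit circle -/
def quadA (x y : ℝ × ℝ) : ℝ := (y.1 - x.1) ^ 2 + (y.2 - x.2) ^ 2

/-- see `quadA` -/
def quadB (x y : ℝ × ℝ) : ℝ := x.1 * (y.1 - x.1) + x.2 * (y.2 - x.2)

/-- see `quadA` -/
def quadC (x : ℝ × ℝ) : ℝ := 1 - x.1 ^ 2 - x.2 ^ 2

/-- the affine coordinate of the point `a` of the unit circle on the line through `x` and `y` -/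
noncomputable def rootA (x y : ℝ × ℝ) : ℝ :=
  (-quadB x y - √(quadB x y ^ 2 + quadA x y * quadC x)) / quadA x y

/-- the affine coordinate of the point `b` of the unit circle on the line through `x` and `y` -/
noncomputable def rootB (x y : ℝ × ℝ) : ℝ :=
  (-quadB x y + √(quadB x y ^ 2 + quadA x y * quadC x)) / quadA x y

open Classical in
/-- The Hilbert metric `h (x, y) = |log {x, y; a, b}|` of the disk, with the cross-ratio
`(x - a) (y - b) / ((x - b) (y - a))` computed in the affine coordinate `x + t (y - x) ↦ t` of the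
line through `x` and `y`. -/
noncomputable def h (x y : ℝ × ℝ) : ℝ :=
  if x = y then 0 else
    |Real.log (((0 - rootA x y) * (1 - rootB x y)) / ((0 - rootB x y) * (1 - rootA x y)))|

/-- the taxicab metric -/
def m (x y : ℝ × ℝ) : ℝ := |x.1 - y.1| + |x.2 - y.2|

/-- the metric `d = h + m` -/
noncomputable def d (x y : ℝ × ℝ) : ℝ := h x y + m x y

/-- `p` is the midpoint of the segment from `x` to `y` -/
def IsMidpoint (p x y : ℝ × ℝ) : Prop := p ∈ segment ℝ x y ∧ d x p = d p y

/-- Nonpositive curvature in the sense of Busemann: every point has a neighbourhood (here: a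
`d`-ball) such that `2 d (p, q) ≤ d (y, z)` for all `x, y, z` in it and the midpoints `p` of
`[x, y]` and `q` of `[x, z]`. -/
def NonposCurvature : Prop :=
  ∀ c ∈ disk, ∃ r > 0, ∀ x ∈ disk, ∀ y ∈ disk, ∀ z ∈ disk, d c x < r → d c y < r → d c z < r →
    ∀ p q : ℝ × ℝ, IsMidpoint p x y → IsMidpoint q x z → 2 * d p q ≤ d y z

/-! ### The Hilbert metric does not depend on the labelling -/

theorem h_eq {x y : ℝ × ℝ} (hxy : x ≠ y) {i j : ℝ} (hij : i ≠ j)
    (hi : (x.1 + i * (y.1 - x.1)) ^ 2 + (x.2 + i * (y.2 - x.2)) ^ 2 = 1)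
    (hj : (x.1 + j * (y.1 - x.1)) ^ 2 + (x.2 + j * (y.2 - x.2)) ^ 2 = 1) :
    h x y = |Real.log (((0 - i) * (1 - j)) / ((0 - j) * (1 - i)))| := by
  have hA : 0 < quadA x y := by
    unfold quadA
    rcases eq_or_ne x.1 y.1 with h1 | h1
    · have h2 : x.2 ≠ y.2 := fun h2 => hxy (Prod.ext h1 h2)
      have := sq_pos_of_ne_zero (sub_ne_zero.2 h2.symm)
      nlinarith [sq_nonneg (y.1 - x.1)]
    · have := sq_pos_of_ne_zero (sub_ne_zero.2 h1.symm)
      nlinarith [sq_nonneg (y.2 - x.2)]
  set A := quadA x y with hAdef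
  set B := quadB x y with hBdef
  set C := quadC x with hCdef
  have hi' : A * i ^ 2 + 2 * B * i - C = 0 := by
    rw [hAdef, hBdef, hCdef]; unfold quadA quadB quadC; linarith
  have hj' : A * j ^ 2 + 2 * B * j - C = 0 := by
    rw [hAdef, hBdef, hCdef]; unfold quadA quadB quadC; linarith
  have hsum : A * (i + j) = -2 * B := by
    have h1 : (i - j) * (A * (i + j) + 2 * B) = 0 := by linarith
    have := (mul_eq_zero.1 h1).resolve_left (sub_ne_zero.2 hij)
    linarith
  have hdisc : B ^ 2 + A * C = (A * (i - j) / 2) ^ 2 := by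
    have h1 : A * C = A * (A * i ^ 2 + 2 * B * i) := by
      have : C = A * i ^ 2 + 2 * B * i := by linarith
      rw [this]
    have h2 : B = -(A * (i + j)) / 2 := by linarith
    rw [h1, h2]; ring
  have hsq : √(B ^ 2 + A * C) = |A * (i - j) / 2| := by rw [hdisc, Real.sqrt_sq_eq_abs]
  have hB' : -B = A * (i + j) / 2 := by linarith
  unfold h
  rw [if_neg hxy]
  rcases lt_or_gt_of_ne hij with hlt | hlt
  · have h1 : |A * (i - j) / 2| = A * (j - i) / 2 := by
      rw [abs_of_nonpos]
      · ring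
      · nlinarith
    have ha : rootA x y = i := by
      unfold rootA
      rw [← hAdef, ← hBdef, ← hCdef, hsq, h1, hB', div_eq_iff hA.ne']; ring
    have hb : rootB x y = j := by
      unfold rootB
      rw [← hAdef, ← hBdef, ← hCdef, hsq, h1, hB', div_eq_iff hA.ne']; ring
    rw [ha, hb]
  · have h1 : |A * (i - j) / 2| = A * (i - j) / 2 := by
      rw [abs_of_nonneg]
      nlinarith
    have ha : rootA x y = j := by
      unfold rootA
      rw [← hAdef, ← hBdef, ← hCdef, hsq, h1, hB', div_eq_iff hA.ne']; ring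
    have hb : rootB x y = i := by
      unfold rootB
      rw [← hAdef, ← hBdef, ← hCdef, hsq, h1, hB', div_eq_iff hA.ne']; ring
    rw [ha, hb, ← abs_neg, ← Real.log_inv, inv_div]

/-! ### A second derivative lemma -/

theorem second {g g1 : ℝ → ℝ} {g2 : ℝ} (hg : ∀ᶠ t in 𝓝 (0 : ℝ), HasDerivAt g (g1 t) t)
    (hg1 : HasDerivAt g1 g2 0) (a b η : ℝ) (hab : a + b / 2 = 0)
    (hpos : 0 < a * g2 + b * (g2 / 4 + 2 * η * g1 0)) :
    ∀ᶠ T in 𝓝 (0 : ℝ), a * g 0 + b * g 0 ≤ a * g T + b * g (T / 2 + η * T ^ 2) := by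
  have hin : ∀ T : ℝ, HasDerivAt (fun T : ℝ => T / 2 + η * T ^ 2) (1 / 2 + 2 * η * T) T := by
    intro T
    have h1 : HasDerivAt (fun T : ℝ => T / 2) (1 / 2) T := (hasDerivAt_id T).div_const 2
    have h2 : HasDerivAt (fun T : ℝ => η * T ^ 2) (η * (2 * T)) T := by
      have := (hasDerivAt_pow 2 T).const_mul η
      simpa using this
    exact (h1.add h2).congr_deriv (by ring)
  have hcont : Tendsto (fun T : ℝ => T / 2 + η * T ^ 2) (𝓝 0) (𝓝 0) := by
    have := (hin 0).continuousAt.tendsto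
    simpa using this
  set F : ℝ → ℝ := fun T => a * g T + b * g (T / 2 + η * T ^ 2) with hF
  have hF' : ∀ᶠ T in 𝓝 (0 : ℝ), HasDerivAt F
      (a * g1 T + b * (g1 (T / 2 + η * T ^ 2) * (1 / 2 + 2 * η * T))) T := by
    filter_upwards [hg, hcont.eventually hg] with T h1 h2
    exact (h1.const_mul a).add ((h2.comp T (hin T)).const_mul b)
  have hd1 : deriv F =ᶠ[𝓝 0]
      fun T => a * g1 T + b * (g1 (T / 2 + η * T ^ 2) * (1 / 2 + 2 * η * T)) := by
    filter_upwards [hF'] with T h1 using h1.deriv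
  have hg10 : HasDerivAt g1 g2 ((0 : ℝ) / 2 + η * 0 ^ 2) := by
    have h0 : ((0 : ℝ) / 2 + η * 0 ^ 2) = 0 := by norm_num
    rw [h0]; exact hg1
  have hd2 : HasDerivAt (fun T => a * g1 T + b * (g1 (T / 2 + η * T ^ 2) * (1 / 2 + 2 * η * T)))
      (a * g2 + b * (g2 / 4 + 2 * η * g1 0)) 0 := by
    have h1 : HasDerivAt (fun T : ℝ => g1 (T / 2 + η * T ^ 2)) (g2 * (1 / 2 + 2 * η * 0)) 0 :=
      hg10.comp 0 (hin 0)
    have h2 : HasDerivAt (fun T : ℝ => 1 / 2 + 2 * η * T) (2 * η) 0 := by
      exact (((hasDerivAt_id' (0 : ℝ)).const_mul (2 * η)).const_add (1 / 2)).congr_deriv (by ring)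
    have h3 := (hg1.const_mul a).add ((h1.mul h2).const_mul b)
    refine h3.congr_deriv ?_
    have h0 : ((0 : ℝ) / 2 + η * 0 ^ 2) = 0 := by norm_num
    rw [h0]
    ring
  have hmin : IsLocalMin F 0 := by
    apply isLocalMin_of_deriv_deriv_pos
    · rw [hd1.deriv_eq, hd2.deriv]; exact hpos
    · rw [hd1.eq_of_nhds]
      simp only [zero_div, ne_eq, OfNat.ofNat_ne_zero, not_false_eq_true, zero_pow, mul_zero,
        add_zero]
      have : a = -b / 2 := by linarith
      rw [this]; ring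
    · exact hF'.self_of_nhds.continuousAt
  filter_upwards [hmin] with T hT
  have : F 0 = a * g 0 + b * g 0 := by simp [hF]
  rw [← this]; exact hT

/-! ### The distance along the lines through `(3/5, 0)` -/

/-- the point with parameter `t` on the line of slope `σ` through `(3/5, 0)` -/
noncomputable def P (σ t : ℝ) : ℝ × ℝ := (3 / 5 + t, σ * t)

/-- the larger root -/
noncomputable def rp (σ : ℝ) : ℝ := (-(3 / 5) + √(1 + 16 / 25 * σ ^ 2)) / (1 + σ ^ 2)

/-- the smaller root -/
noncomputable def rm (σ : ℝ) : ℝ := (-(3 / 5) - √(1 + 16 / 25 * σ ^ 2)) / (1 + σ ^ 2)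

/-- the distance function along the line of slope `σ` -/
noncomputable def g (σ t : ℝ) : ℝ := Real.log ((t - rm σ) / (rp σ - t)) + (1 + |σ|) * t

theorem one_le_sqrt (σ : ℝ) : 1 ≤ √(1 + 16 / 25 * σ ^ 2) := by
  rw [Real.one_le_sqrt]; nlinarith [sq_nonneg σ]

theorem rp_pos (σ : ℝ) : 0 < rp σ := by
  unfold rp
  have := one_le_sqrt σ
  have := sq_nonneg σ
  apply div_pos <;> linarith

theorem rm_neg (σ : ℝ) : rm σ < 0 := by
  unfold rm
  have := one_le_sqrt σ
  have := sq_nonneg σ
  apply div_neg_of_neg_of_pos <;> linarith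

theorem rp_root (σ : ℝ) : (3 / 5 + rp σ) ^ 2 + (σ * rp σ) ^ 2 = 1 := by
  have h1 : √(1 + 16 / 25 * σ ^ 2) ^ 2 = 1 + 16 / 25 * σ ^ 2 :=
    Real.sq_sqrt (by nlinarith [sq_nonneg σ])
  have h2 : (1 + σ ^ 2) ≠ 0 := by nlinarith [sq_nonneg σ]
  unfold rp
  set w := √(1 + 16 / 25 * σ ^ 2)
  field_simp
  linear_combination (25 * (1 + σ ^ 2)) * h1

theorem rm_root (σ : ℝ) : (3 / 5 + rm σ) ^ 2 + (σ * rm σ) ^ 2 = 1 := by
  have h1 : √(1 + 16 / 25 * σ ^ 2) ^ 2 = 1 + 16 / 25 * σ ^ 2 :=
    Real.sq_sqrt (by nlinarith [sq_nonneg σ])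
  have h2 : (1 + σ ^ 2) ≠ 0 := by nlinarith [sq_nonneg σ]
  unfold rm
  set w := √(1 + 16 / 25 * σ ^ 2)
  field_simp
  linear_combination (25 * (1 + σ ^ 2)) * h1

theorem log_mono {σ s t : ℝ} (hs : 0 ≤ s) (hst : s < t) (ht : t < rp σ) :
    Real.log ((s - rm σ) / (rp σ - s)) < Real.log ((t - rm σ) / (rp σ - t)) := by
  have h1 := rm_neg σ
  have h2 := rp_pos σ
  apply Real.log_lt_log
  · apply div_pos <;> linarith
  · rw [div_lt_div_iff₀ (by linarith) (by linarith)]
    nlinarith

theorem g_mono {σ s t : ℝ} (hs : 0 ≤ s) (hst : s < t) (ht : t < rp σ) : g σ s < g σ t := by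
  unfold g
  have := log_mono hs hst ht
  nlinarith [abs_nonneg σ]

theorem dist_line {σ s t : ℝ} (hs : 0 ≤ s) (hst : s < t) (ht : t < rp σ) :
    d (P σ s) (P σ t) = g σ t - g σ s := by
  have h1 := rm_neg σ
  have h2 := rp_pos σ
  have hts : t - s ≠ 0 := by linarith [sub_pos.2 hst]
  have hh : h (P σ s) (P σ t) =
      Real.log ((t - rm σ) / (rp σ - t)) - Real.log ((s - rm σ) / (rp σ - s)) := by
    rw [h_eq (i := (rm σ - s) / (t - s)) (j := (rp σ - s) / (t - s))]
    · have e : (0 - (rm σ - s) / (t - s)) * (1 - (rp σ - s) / (t - s)) /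
          ((0 - (rp σ - s) / (t - s)) * (1 - (rm σ - s) / (t - s))) =
          ((s - rm σ) / (rp σ - s)) / ((t - rm σ) / (rp σ - t)) := by
        have h3 : rp σ - s ≠ 0 := by linarith [sub_pos.2 (hst.trans ht)]
        have h4 : t - rm σ ≠ 0 := by
          have : 0 < t - rm σ := by linarith
          exact this.ne'
        have h5 : rp σ - t ≠ 0 := by linarith [sub_pos.2 ht]
        have e1 : 0 - (rm σ - s) / (t - s) = (s - rm σ) / (t - s) := by ring
        have e2 : 1 - (rp σ - s) / (t - s) = -(rp σ - t) / (t - s) := by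
          field_simp; ring
        have e3 : 0 - (rp σ - s) / (t - s) = -(rp σ - s) / (t - s) := by ring
        have e4 : 1 - (rm σ - s) / (t - s) = (t - rm σ) / (t - s) := by
          field_simp; ring
        rw [e1, e2, e3, e4]
        field_simp
      rw [e, Real.log_div]
      · have := log_mono hs hst ht
        rw [abs_of_neg (by linarith)]; ring
      · apply ne_of_gt; apply div_pos <;> linarith
      · apply ne_of_gt; apply div_pos <;> linarith
    · intro e
      have := congrArg Prod.fst e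
      simp only [P] at this
      linarith
    · intro e
      rw [div_left_inj' hts] at e
      linarith
    · have e1 : (P σ s).1 + (rm σ - s) / (t - s) * ((P σ t).1 - (P σ s).1) = 3 / 5 + rm σ := by
        simp only [P]; field_simp; ring
      have e2 : (P σ s).2 + (rm σ - s) / (t - s) * ((P σ t).2 - (P σ s).2) = σ * rm σ := by
        simp only [P]; field_simp; ring
      rw [e1, e2, rm_root]
    · have e1 : (P σ s).1 + (rp σ - s) / (t - s) * ((P σ t).1 - (P σ s).1) = 3 / 5 + rp σ := by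
        simp only [P]; field_simp; ring
      have e2 : (P σ s).2 + (rp σ - s) / (t - s) * ((P σ t).2 - (P σ s).2) = σ * rp σ := by
        simp only [P]; field_simp; ring
      rw [e1, e2, rp_root]
  have hm : m (P σ s) (P σ t) = (1 + |σ|) * (t - s) := by
    simp only [m, P]
    have e1 : (3 / 5 + s - (3 / 5 + t)) = -(t - s) := by ring
    have e2 : σ * s - σ * t = -(σ * (t - s)) := by ring
    rw [e1, e2, abs_neg, abs_neg, abs_mul, abs_of_pos (sub_pos.2 hst)]
    ring
  unfold d
  rw [hh, hm]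
  unfold g
  ring

/-! ### The vertical distance -/

/-- half of the length of the vertical chord -/
noncomputable def ell (t : ℝ) : ℝ := √(1 - (3 / 5 + t) ^ 2)

/-- the length of the vertical segment -/
noncomputable def V (κ t : ℝ) : ℝ :=
  2 * Real.log ((ell t + κ * t) / (ell t - κ * t)) + 2 * (κ * t)

theorem aux1 {u l : ℝ} (hu : u ≠ 0) : 1 - (u + l) / (2 * u) = -(l - u) / (2 * u) := by
  field_simp; ring

theorem aux2 {u l : ℝ} (hu : u ≠ 0) : 1 - (u - l) / (2 * u) = (l + u) / (2 * u) := by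
  field_simp; ring

theorem dist_vert {κ t : ℝ} (h0 : 0 < κ * t) (h1 : κ * t < ell t)
    (h2 : (3 / 5 + t) ^ 2 < 1) : d (P κ t) (P (-κ) t) = V κ t := by
  have hl : ell t ^ 2 = 1 - (3 / 5 + t) ^ 2 := Real.sq_sqrt (by linarith)
  have hlog : 0 < Real.log ((ell t + κ * t) / (ell t - κ * t)) := by
    apply Real.log_pos
    rw [lt_div_iff₀ (by linarith)]
    linarith
  have hh : h (P κ t) (P (-κ) t) = 2 * Real.log ((ell t + κ * t) / (ell t - κ * t)) := by
    have hkt : 2 * (κ * t) ≠ 0 := by positivity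
    rw [h_eq (i := (κ * t - ell t) / (2 * (κ * t))) (j := (κ * t + ell t) / (2 * (κ * t)))]
    · have e : (0 - (κ * t - ell t) / (2 * (κ * t))) * (1 - (κ * t + ell t) / (2 * (κ * t))) /
          ((0 - (κ * t + ell t) / (2 * (κ * t))) * (1 - (κ * t - ell t) / (2 * (κ * t)))) =
          (((ell t + κ * t) / (ell t - κ * t)) ^ 2)⁻¹ := by
        have e1 : 0 - (κ * t - ell t) / (2 * (κ * t)) = (ell t - κ * t) / (2 * (κ * t)) := by ring
        have e2 : 1 - (κ * t + ell t) / (2 * (κ * t)) = -(ell t - κ * t) / (2 * (κ * t)) :=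
          aux1 h0.ne'
        have e3 : 0 - (κ * t + ell t) / (2 * (κ * t)) = -(ell t + κ * t) / (2 * (κ * t)) := by ring
        have e4 : 1 - (κ * t - ell t) / (2 * (κ * t)) = (ell t + κ * t) / (2 * (κ * t)) :=
          aux2 h0.ne'
        rw [e1, e2, e3, e4]
        have h3 : ell t + κ * t ≠ 0 := by
          have : 0 < ell t + κ * t := by linarith
          exact this.ne'
        have h4 : ell t - κ * t ≠ 0 := by
          have : 0 < ell t - κ * t := by linarith
          exact this.ne'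
        generalize κ * t = u at *
        field_simp
      rw [e, Real.log_inv, Real.log_pow, abs_neg, abs_of_pos]
      · push_cast; ring
      · push_cast; positivity
    · intro e
      have := congrArg Prod.snd e
      simp only [P] at this
      linarith
    · intro e
      rw [div_left_inj' hkt] at e
      linarith
    · have e1 : (P κ t).1 + (κ * t - ell t) / (2 * (κ * t)) * ((P (-κ) t).1 - (P κ t).1)
          = 3 / 5 + t := by simp only [P]; ring
      have e2 : (P κ t).2 + (κ * t - ell t) / (2 * (κ * t)) * ((P (-κ) t).2 - (P κ t).2)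
          = ell t := by
        simp only [P]
        have : -κ * t - κ * t = -(2 * (κ * t)) := by ring
        rw [this, mul_neg, div_mul_cancel₀ _ hkt]
        ring
      rw [e1, e2, hl]; ring
    · have e1 : (P κ t).1 + (κ * t + ell t) / (2 * (κ * t)) * ((P (-κ) t).1 - (P κ t).1)
          = 3 / 5 + t := by simp only [P]; ring
      have e2 : (P κ t).2 + (κ * t + ell t) / (2 * (κ * t)) * ((P (-κ) t).2 - (P κ t).2)
          = -ell t := by
        simp only [P]
        have : -κ * t - κ * t = -(2 * (κ * t)) := by ring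
        rw [this, mul_neg, div_mul_cancel₀ _ hkt]
        ring
      rw [e1, e2, neg_sq, hl]; ring
  have hm : m (P κ t) (P (-κ) t) = 2 * (κ * t) := by
    simp only [m, P]
    have e2 : κ * t - -κ * t = 2 * (κ * t) := by ring
    rw [sub_self, abs_zero, e2, abs_of_pos (by linarith), zero_add]
  unfold d V
  rw [hh, hm]

theorem V_mono {κ s t : ℝ} (hκ : 0 < κ) (hs : 0 < s) (hst : s ≤ t) (ht : κ * t < ell t) :
    V κ s ≤ V κ t := by
  have hl : ell t ≤ ell s := by
    unfold ell
    apply Real.sqrt_le_sqrt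
    nlinarith
  have h1 : κ * s ≤ κ * t := by nlinarith
  have h0 : 0 < κ * s := by positivity
  unfold V
  have : Real.log ((ell s + κ * s) / (ell s - κ * s)) ≤
      Real.log ((ell t + κ * t) / (ell t - κ * t)) := by
    apply Real.log_le_log
    · apply div_pos <;> linarith
    · rw [div_le_div_iff₀ (by linarith) (by linarith)]
      nlinarith
  linarith

/-! ### The case `κ = 0` -/

theorem rp_zero : rp 0 = 2 / 5 := by
  unfold rp; norm_num

theorem rm_zero : rm 0 = -(8 / 5) := by
  unfold rm; norm_num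

/-- derivative of `g 0` -/
noncomputable def g1 (t : ℝ) : ℝ := 1 / (t + 8 / 5) + 1 / (2 / 5 - t) + 1

theorem g_zero (t : ℝ) : g 0 t = Real.log ((t + 8 / 5) / (2 / 5 - t)) + t := by
  unfold g; rw [rp_zero, rm_zero]; norm_num

theorem hasDerivAt_g {t : ℝ} (h1 : -(8 / 5) < t) (h2 : t < 2 / 5) :
    HasDerivAt (g 0) (g1 t) t := by
  have e : g 0 =ᶠ[𝓝 t] fun t => Real.log (t + 8 / 5) - Real.log (2 / 5 - t) + t := by
    filter_upwards [Ioo_mem_nhds h1 h2] with s hs
    rw [g_zero, Real.log_div (by linarith [hs.1] : s + 8 / 5 > 0).ne'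
      (by linarith [hs.2] : 2 / 5 - s > 0).ne']
  refine HasDerivAt.congr_of_eventuallyEq ?_ e
  have a1 := ((hasDerivAt_id' t).add_const (8 / 5)).log (by linarith : t + 8 / 5 > 0).ne'
  have a2 := ((hasDerivAt_id' t).const_sub (2 / 5)).log (by linarith : 2 / 5 - t > 0).ne'
  refine ((a1.sub a2).add (hasDerivAt_id' t)).congr_deriv ?_
  unfold g1; ring

theorem hasDerivAt_g1 : HasDerivAt g1 (375 / 64) 0 := by
  have a1 := ((hasDerivAt_id' (0 : ℝ)).add_const (8 / 5)).inv (by norm_num)
  have a2 := ((hasDerivAt_id' (0 : ℝ)).const_sub (2 / 5)).inv (by norm_num)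
  have := (a1.add a2).add_const (1 : ℝ)
  have e : g1 = fun t : ℝ => (t + 8 / 5)⁻¹ + (2 / 5 - t)⁻¹ + 1 := by
    funext t; unfold g1; simp only [one_div]
  rw [e]
  refine this.congr_deriv ?_
  norm_num

/-- the derivative of `V κ t` with respect to `κ` at `κ = 0` -/
noncomputable def G (t : ℝ) : ℝ := 4 * t / ell t + 2 * t

/-- derivative of `G` -/
noncomputable def G1 (t : ℝ) : ℝ := 4 * (16 / 25 - 3 / 5 * t) / ell t ^ 3 + 2

theorem ell_pos {t : ℝ} (h1 : -(8 / 5) < t) (h2 : t < 2 / 5) : 0 < ell t := by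
  unfold ell
  apply Real.sqrt_pos.2
  nlinarith

theorem ell_sq {t : ℝ} (h1 : -(8 / 5) < t) (h2 : t < 2 / 5) : ell t ^ 2 = 1 - (3 / 5 + t) ^ 2 := by
  unfold ell
  apply Real.sq_sqrt
  nlinarith

theorem ell_zero : ell 0 = 4 / 5 := by
  unfold ell
  rw [show (1 : ℝ) - (3 / 5 + 0) ^ 2 = (4 / 5) ^ 2 by norm_num]
  exact Real.sqrt_sq (by norm_num)

theorem hasDerivAt_ell {t : ℝ} (h1 : -(8 / 5) < t) (h2 : t < 2 / 5) :
    HasDerivAt ell (-(3 / 5 + t) / ell t) t := by
  have hp := ell_pos h1 h2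
  have a1 : HasDerivAt (fun t : ℝ => 1 - (3 / 5 + t) ^ 2) (-(2 * (3 / 5 + t))) t := by
    have := (((hasDerivAt_id' t).const_add (3 / 5)).pow 2).const_sub 1
    refine this.congr_deriv ?_
    norm_num
  have := a1.sqrt (by
    have := ell_sq h1 h2
    rw [← this]; positivity)
  refine this.congr_deriv ?_
  change -(2 * (3 / 5 + t)) / (2 * ell t) = _
  field_simp

theorem hasDerivAt_G {t : ℝ} (h1 : -(8 / 5) < t) (h2 : t < 2 / 5) :
    HasDerivAt G (G1 t) t := by
  have hp := ell_pos h1 h2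
  have hs := ell_sq h1 h2
  have a1 := ((hasDerivAt_id' t).const_mul 4).div (hasDerivAt_ell h1 h2) hp.ne'
  have a2 := a1.add ((hasDerivAt_id' t).const_mul 2)
  refine a2.congr_deriv ?_
  unfold G1
  field_simp
  rw [hs]
  ring

theorem hasDerivAt_G1 : HasDerivAt G1 (75 / 8) 0 := by
  have h := hasDerivAt_ell (t := 0) (by norm_num) (by norm_num)
  rw [ell_zero] at h
  have h3 := h.pow 3
  have a1 := (((hasDerivAt_id' (0 : ℝ)).const_mul (3 / 5)).const_sub (16 / 25)).const_mul 4
  have a2 := (a1.div h3 (by rw [Pi.pow_apply, ell_zero]; norm_num)).add_const 2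
  refine a2.congr_deriv ?_
  simp only [Pi.pow_apply, ell_zero]
  norm_num

theorem G_lt {s t : ℝ} (hs : 0 < s) (hst : s < t) (ht : t < 2 / 5) : G s < G t := by
  have p1 := ell_pos (by linarith) (hst.trans ht)
  have p2 := ell_pos (by linarith) ht
  have hl : ell t ≤ ell s := by
    unfold ell
    apply Real.sqrt_le_sqrt
    nlinarith
  unfold G
  have : 4 * s / ell s ≤ 4 * t / ell t := by
    rw [div_le_div_iff₀ p1 p2]
    nlinarith
  linarith

theorem step_g : ∀ᶠ T in 𝓝 (0 : ℝ), 2 * g 0 (T / 2 + 7 / 40 * T ^ 2) ≤ g 0 0 + g 0 T := by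
  have h := second (g := g 0) (g1 := g1) (g2 := 375 / 64) (by
    filter_upwards [Ioo_mem_nhds (show (-(8 / 5) : ℝ) < 0 by norm_num)
      (show (0 : ℝ) < 2 / 5 by norm_num)] with t ht using hasDerivAt_g ht.1 ht.2) hasDerivAt_g1
    (1 / 2) (-1) (7 / 40) (by norm_num) (by unfold g1; norm_num)
  filter_upwards [h] with T hT
  linarith

theorem step_G : ∀ᶠ T in 𝓝 (0 : ℝ), G T ≤ 2 * G (T / 2 + 21 / 125 * T ^ 2) := by
  have h := second (g := G) (g1 := G1) (g2 := 75 / 8) (by
    filter_upwards [Ioo_mem_nhds (show (-(8 / 5) : ℝ) < 0 by norm_num)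
      (show (0 : ℝ) < 2 / 5 by norm_num)] with t ht using hasDerivAt_G ht.1 ht.2) hasDerivAt_G1
    (-1) 2 (21 / 125) (by norm_num) (by unfold G1; rw [ell_zero]; norm_num)
  have hG : G 0 = 0 := by unfold G; simp
  filter_upwards [h] with T hT
  rw [hG] at hT
  linarith

/-! ### The limit `κ → 0` -/

theorem continuous_rp : Continuous rp := by
  unfold rp
  apply Continuous.div
  · fun_prop
  · fun_prop
  · intro σ; nlinarith [sq_nonneg σ]

theorem continuous_rm : Continuous rm := by
  unfold rm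
  apply Continuous.div
  · fun_prop
  · fun_prop
  · intro σ; nlinarith [sq_nonneg σ]

theorem continuousAt_g {t : ℝ} (h1 : 0 ≤ t) (h2 : t < 2 / 5) :
    ContinuousAt (fun σ => g σ t) 0 := by
  unfold g
  have a := rp_zero
  have b := rm_zero
  refine ContinuousAt.add (ContinuousAt.log (ContinuousAt.div ?_ ?_ ?_) ?_) ?_
  · exact (continuous_const.sub continuous_rm).continuousAt
  · exact (continuous_rp.sub continuous_const).continuousAt
  · rw [a]; linarith [sub_pos.2 h2]
  · rw [a, b]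
    apply ne_of_gt; apply div_pos <;> linarith
  · fun_prop

theorem hasDerivAt_V {t : ℝ} (h1 : 0 ≤ t) (h2 : t < 2 / 5) :
    HasDerivAt (fun κ => V κ t) (G t) 0 := by
  have hp := ell_pos (by linarith) h2
  have a1 : HasDerivAt (fun κ : ℝ => ell t + κ * t) t 0 := by
    exact (((hasDerivAt_id' (0 : ℝ)).mul_const t).const_add (ell t)).congr_deriv (by ring)
  have a2 : HasDerivAt (fun κ : ℝ => ell t - κ * t) (-t) 0 := by
    exact (((hasDerivAt_id' (0 : ℝ)).mul_const t).const_sub (ell t)).congr_deriv (by ring)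
  have e1 : ell t + 0 * t = ell t := by ring
  have e2 : ell t - 0 * t = ell t := by ring
  have a3 := a1.div a2 (by rw [e2]; exact hp.ne')
  have a4 := a3.log (by
    simp only [Pi.div_apply]
    rw [e1, e2]; exact (div_pos hp hp).ne')
  have a5 := (a4.const_mul 2).add (((hasDerivAt_id' (0 : ℝ)).mul_const t).const_mul 2)
  refine a5.congr_deriv ?_
  simp only [Pi.div_apply]
  rw [e1, e2]
  unfold G
  field_simp
  ring

theorem d_self (x : ℝ × ℝ) : d x x = 0 := by
  unfold d h m; simp

theorem g_neg (σ t : ℝ) : g (-σ) t = g σ t := by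
  unfold g rp rm; simp

theorem isMidpoint {σ τ T : ℝ} (h0 : 0 < τ) (h1 : τ < T) (h2 : T < rp σ)
    (h3 : 2 * g σ τ = g σ 0 + g σ T) : IsMidpoint (P σ τ) (P σ 0) (P σ T) := by
  have hT : 0 < T := h0.trans h1
  refine ⟨⟨1 - τ / T, τ / T, ?_, by positivity, by ring, ?_⟩, ?_⟩
  · rw [sub_nonneg, div_le_one hT]; exact h1.le
  · ext
    · simp only [P, Prod.smul_mk, Prod.mk_add_mk, smul_eq_mul]
      field_simp; ring
    · simp only [P, Prod.smul_mk, Prod.mk_add_mk, smul_eq_mul]
      field_simp; ring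
  · rw [dist_line le_rfl h0 (h1.trans h2), dist_line h0.le h1 h2]
    linarith

/-- The metric `d = h + m` on the disk does not have nonpositive curvature in the sense of
Busemann. -/
theorem result : ¬ NonposCurvature := by
  intro hN
  obtain ⟨r, hr, H⟩ := hN (3 / 5, 0) (by unfold disk; norm_num)
  -- choice of `T`
  have hg0 : ∀ᶠ T in 𝓝 (0 : ℝ), g 0 T - g 0 0 < r := by
    have : ContinuousAt (g 0) 0 := (hasDerivAt_g (by norm_num) (by norm_num)).continuousAt
    have h2 : Tendsto (fun T => g 0 T - g 0 0) (𝓝 0) (𝓝 (g 0 0 - g 0 0)) :=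
      this.tendsto.sub tendsto_const_nhds
    rw [sub_self] at h2
    exact h2.eventually (Iio_mem_nhds hr)
  have hsmall : ∀ᶠ T in 𝓝 (0 : ℝ), T < 1 / 5 := Iio_mem_nhds (by norm_num)
  obtain ⟨T, ⟨⟨⟨hT1, hT2⟩, hT3⟩, hT4⟩, hT0⟩ :=
    (((((step_g.and step_G).and hg0).and hsmall).filter_mono nhdsWithin_le_nhds).and
      (self_mem_nhdsWithin : Ioi (0 : ℝ) ∈ 𝓝[>] (0 : ℝ))).exists
  have hT0 : 0 < T := hT0
  obtain ⟨t, ht⟩ : ∃ t, t = T / 2 + 17 / 100 * T ^ 2 := ⟨_, rfl⟩
  have ht0 : 0 < t := by rw [ht]; positivity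
  have htT : t < T := by rw [ht]; nlinarith
  have hA : 2 * g 0 t < g 0 0 + g 0 T := by
    have h1 : t < T / 2 + 7 / 40 * T ^ 2 := by rw [ht]; nlinarith
    have h2 := g_mono (σ := 0) ht0.le h1 (by rw [rp_zero]; nlinarith)
    linarith
  have hB : G T < 2 * G t := by
    have h1 : T / 2 + 21 / 125 * T ^ 2 < t := by rw [ht]; nlinarith
    have h2 := G_lt (by positivity) h1 (by linarith)
    linarith
  -- choice of `κ`
  have hκ1 : ∀ᶠ κ in 𝓝 (0 : ℝ), 2 * g κ t < g κ 0 + g κ T := by
    have c1 := (continuousAt_g ht0.le (by linarith : t < 2 / 5)).tendsto.const_mul 2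
    have c2 := (continuousAt_g le_rfl (by norm_num : (0 : ℝ) < 2 / 5)).tendsto.add
      (continuousAt_g hT0.le (by linarith : T < 2 / 5)).tendsto
    exact c1.eventually_lt c2 hA
  have hκ2 : ∀ᶠ κ in 𝓝 (0 : ℝ), g κ T - g κ 0 < r := by
    have c2 := (continuousAt_g hT0.le (by linarith : T < 2 / 5)).tendsto.sub
      (continuousAt_g le_rfl (by norm_num : (0 : ℝ) < 2 / 5)).tendsto
    exact c2.eventually (Iio_mem_nhds hT3)
  have hκ3 : ∀ᶠ κ in 𝓝 (0 : ℝ), T < rp κ := by
    have : Tendsto rp (𝓝 0) (𝓝 (2 / 5)) := by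
      have := continuous_rp.tendsto 0
      rwa [rp_zero] at this
    exact this.eventually (Ioi_mem_nhds (by linarith))
  have hκ4 : ∀ᶠ κ in 𝓝 (0 : ℝ), κ * T < ell T := by
    have : Tendsto (fun κ : ℝ => κ * T) (𝓝 0) (𝓝 (0 * T)) := by
      exact (continuous_id.mul continuous_const).tendsto 0
    rw [zero_mul] at this
    exact this.eventually (Iio_mem_nhds (ell_pos (by linarith) (by linarith)))
  have hκ5 : ∀ᶠ κ in 𝓝 (0 : ℝ), SignType.sign (2 * V κ t - V κ T) = SignType.sign (κ - 0) := by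
    have hd := ((hasDerivAt_V ht0.le (by linarith : t < 2 / 5)).const_mul 2).sub
      (hasDerivAt_V hT0.le (by linarith : T < 2 / 5))
    apply eventually_nhdsWithin_sign_eq_of_deriv_pos
    · have : deriv (fun κ => 2 * V κ t - V κ T) 0 = 2 * G t - G T := hd.deriv
      rw [this]; linarith
    · unfold V
      have p1 := ell_pos (t := t) (by linarith) (by linarith)
      have p2 := ell_pos (t := T) (by linarith) (by linarith)
      simp [div_self p1.ne', div_self p2.ne']
  obtain ⟨κ, ⟨⟨⟨⟨h1, h2⟩, h3⟩, h4⟩, h5⟩, hκ⟩ :=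
    ((((((hκ1.and hκ2).and hκ3).and hκ4).and hκ5).filter_mono nhdsWithin_le_nhds).and
      (self_mem_nhdsWithin : Ioi (0 : ℝ) ∈ 𝓝[>] (0 : ℝ))).exists
  have hκ : 0 < κ := hκ
  have h5 : 0 < 2 * V κ t - V κ T := by
    rw [sub_zero, sign_pos hκ] at h5
    exact sign_eq_one_iff.1 h5
  -- the midpoint
  have hmono := fun {s t : ℝ} => g_mono (σ := κ) (s := s) (t := t)
  have hcont : ContinuousOn (g κ) (Icc t T) := by
    intro s hs
    have hrm := rm_neg κ
    apply ContinuousAt.continuousWithinAt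
    unfold g
    refine ContinuousAt.add (ContinuousAt.log (ContinuousAt.div ?_ ?_ ?_) ?_) ?_
    · fun_prop
    · fun_prop
    · linarith [hs.2, sub_pos.2 (lt_of_le_of_lt hs.2 h3)]
    · apply ne_of_gt; apply div_pos
      · linarith [hs.1]
      · linarith [hs.2]
    · fun_prop
  obtain ⟨τ, hτ, hτ'⟩ := intermediate_value_Icc htT.le hcont
    (show (g κ 0 + g κ T) / 2 ∈ Icc (g κ t) (g κ T) by
      have := hmono le_rfl hT0 h3
      constructor <;> linarith)
  have hτ0 : 0 < τ := lt_of_lt_of_le ht0 hτ.1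
  have hτT : τ < T := by
    rcases hτ.2.lt_or_eq with h | h
    · exact h
    · exfalso
      rw [h] at hτ'
      have := hmono le_rfl hT0 h3
      linarith
  have hmid1 := isMidpoint hτ0 hτT h3 (by linarith)
  have hmid2 : IsMidpoint (P (-κ) τ) (P (-κ) 0) (P (-κ) T) := by
    apply isMidpoint hτ0 hτT
    · have : rp (-κ) = rp κ := by unfold rp; simp
      rw [this]; exact h3
    · simp only [g_neg]; linarith
  have e0 : P κ 0 = (3 / 5, 0) := by simp [P]
  have e0' : P (-κ) 0 = (3 / 5, 0) := by simp [P]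
  rw [e0] at hmid1
  rw [e0'] at hmid2
  have hsqT := ell_sq (t := T) (by linarith) (by linarith)
  have hlT := ell_pos (t := T) (by linarith) (by linarith)
  have hdisk : (3 / 5 + T) ^ 2 + (κ * T) ^ 2 < 1 := by
    have : (κ * T) ^ 2 < ell T ^ 2 := by
      apply pow_lt_pow_left₀ h4 (by positivity) (by norm_num)
    linarith
  have hy : P κ T ∈ disk := by
    simp only [disk, P, mem_ofPred_eq]; exact hdisk
  have hz : P (-κ) T ∈ disk := by
    simp only [disk, P, mem_ofPred_eq, neg_mul, neg_sq]; exact hdisk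
  have dy : d (3 / 5, 0) (P κ T) < r := by
    rw [← e0, dist_line le_rfl hT0 h3]; exact h2
  have dz : d (3 / 5, 0) (P (-κ) T) < r := by
    have : rp (-κ) = rp κ := by unfold rp; simp
    rw [← e0', dist_line le_rfl hT0 (by rw [this]; exact h3), g_neg, g_neg]; exact h2
  have hfin := H (3 / 5, 0) (by unfold disk; norm_num) (P κ T) hy (P (-κ) T) hz
    (by rw [d_self]; exact hr) dy dz (P κ τ) (P (-κ) τ) hmid1 hmid2
  have hlτ : ell T ≤ ell τ := by
    unfold ell
    apply Real.sqrt_le_sqrt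
    nlinarith
  have hκτ : κ * τ < κ * T := mul_lt_mul_of_pos_left hτT hκ
  rw [dist_vert (by positivity) (by linarith) (by nlinarith),
    dist_vert (by positivity) h4 (by nlinarith)] at hfin
  have := V_mono hκ ht0 hτ.1 (by linarith)
  linarith

end Pool.Agent.Results.MP_b19ca0_gt.NotBusemannConvex
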